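import Pool.Agent.Helper37_BSig.Stmts

/-! Lemma D and Lemma K of the squad BSIG: pure combinatorics of finite sets of literals. -/

namespace Pool.Agent.BSig

open Cardinal

namespace Helper70

/-- a family which is not `Big` above `ρ` has a finite hitting set -/
theorem hit {X : Type} (𝓕 : Set (Finset (X × Bool))) (ρ : Finset (X × Bool)) (h : ¬ Big 𝓕 ρ) :
    ∃ E : Finset X, ∀ F ∈ 𝓕, ρ ⊆ F → ∃ p ∈ F, p ∉ ρ ∧ p.1 ∈ E := by
  classical
  have h' : ∃ k : ℕ, ¬ ∃ f : Fin k → Finset (X × Bool), (∀ i, f i ∈ 𝓕 ∧ ρ ⊆ f i) ∧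
      ∀ i j, i ≠ j → ∀ p ∈ f i, p ∉ ρ → ∀ q ∈ f j, q ∉ ρ → p.1 ≠ q.1 := by
    by_contra hc
    push Not at hc
    exact h hc
  obtain ⟨k, hk, hmin⟩ : ∃ k : ℕ, (¬ ∃ f : Fin k → Finset (X × Bool), (∀ i, f i ∈ 𝓕 ∧ ρ ⊆ f i) ∧
      ∀ i j, i ≠ j → ∀ p ∈ f i, p ∉ ρ → ∀ q ∈ f j, q ∉ ρ → p.1 ≠ q.1) ∧
      ∀ k' < k, ∃ f : Fin k' → Finset (X × Bool), (∀ i, f i ∈ 𝓕 ∧ ρ ⊆ f i) ∧
      ∀ i j, i ≠ j → ∀ p ∈ f i, p ∉ ρ → ∀ q ∈ f j, q ∉ ρ → p.1 ≠ q.1 := by
    refine ⟨Nat.find h', Nat.find_spec h', fun k' hk' => ?_⟩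
    exact not_not.mp (Nat.find_min h' hk')
  cases k with
  | zero =>
    exfalso
    exact hk ⟨fun i => i.elim0, fun i => i.elim0, fun i => i.elim0⟩
  | succ k =>
    obtain ⟨f, hf1, hf2⟩ := hmin k (Nat.lt_succ_self k)
    refine ⟨Finset.univ.biUnion (fun i => ((f i).filter (fun p => p ∉ ρ)).image Prod.fst), ?_⟩
    intro F hF hρF
    by_contra hc
    push Not at hc
    have hE : ∀ p ∈ F, p ∉ ρ → ∀ i, ∀ q ∈ f i, q ∉ ρ → p.1 ≠ q.1 := by
      intro p hp hpρ i q hq hqρ he
      apply hc p hp hpρ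
      rw [Finset.mem_biUnion]
      refine ⟨i, Finset.mem_univ i, ?_⟩
      rw [Finset.mem_image]
      exact ⟨q, Finset.mem_filter.mpr ⟨hq, hqρ⟩, he.symm⟩
    apply hk
    refine ⟨Fin.cons F f, ?_, ?_⟩
    · intro i
      refine Fin.cases ?_ ?_ i
      · simpa using ⟨hF, hρF⟩
      · intro i; simpa using hf1 i
    · intro i j
      refine Fin.cases ?_ ?_ i
      · refine Fin.cases ?_ ?_ j
        · intro hne; exact absurd rfl hne
        · intro j _ p hp hpρ q hq hqρ
          simp only [Fin.cons_zero, Fin.cons_succ] at hp hq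
          exact hE p hp hpρ j q hq hqρ
      · intro i
        refine Fin.cases ?_ ?_ j
        · intro _ p hp hpρ q hq hqρ
          simp only [Fin.cons_zero, Fin.cons_succ] at hp hq
          exact (hE q hq hqρ i p hp hpρ).symm
        · intro j hne p hp hpρ q hq hqρ
          simp only [Fin.cons_succ] at hp hq
          exact hf2 i j (fun h => hne (by rw [h])) p hp hpρ q hq hqρ

theorem lemmaD_aux {X : Type} (c : Set (X × Bool)) (l : ℕ) :
    ∀ (𝓕 : Set (Finset (X × Bool))), (∀ F ∈ 𝓕, F.card ≤ l) →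
    (∀ s : Finset (X × Bool), Consis (s : Set (X × Bool)) → ¬ Conf (s : Set (X × Bool)) c →
      ∃ F ∈ 𝓕, ¬ Conf (F : Set (X × Bool)) s) →
    ∃ r : Finset (X × Bool), (r : Set (X × Bool)) ⊆ c ∧
      ∀ s : Finset (X × Bool), Consis (s : Set (X × Bool)) → r ⊆ s →
        ∃ F ∈ 𝓕, ¬ Conf (F : Set (X × Bool)) s := by
  classical
  induction l with
  | zero =>
    intro 𝓕 hcard H
    obtain ⟨F, hF, _⟩ := H ∅ (by rintro ⟨x, b, h1, _⟩; simp at h1)
      (by rintro ⟨x, b, h1, _⟩; simp at h1)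
    have hF0 : F = ∅ := by
      have := hcard F hF
      rw [← Finset.card_eq_zero]; omega
    refine ⟨∅, by simp, fun s _ _ => ⟨F, hF, ?_⟩⟩
    rintro ⟨x, b, h1, _⟩
    rw [hF0] at h1
    simp at h1
  | succ l ih =>
    intro 𝓕 hcard H
    by_cases hB : Big 𝓕 ∅
    · refine ⟨∅, by simp, fun s hs _ => ?_⟩
      by_contra hc
      push Not at hc
      obtain ⟨f, hf1, hf2⟩ := hB (s.card + 1)
      have hch : ∀ i, ∃ q : X × Bool, q ∈ s ∧ (q.1, !q.2) ∈ f i := by
        intro i
        obtain ⟨x, b, h1, h2⟩ := hc (f i) (hf1 i).1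
        refine ⟨(x, !b), h2, ?_⟩
        simpa using h1
      choose q hq1 hq2 using hch
      have hinj : ∃ i j : Fin (s.card + 1), i ≠ j ∧ q i = q j := by
        by_contra hn
        push Not at hn
        have hinj : Function.Injective (fun i => (⟨q i, hq1 i⟩ : s)) := by
          intro i j hij
          by_contra hne
          exact hn i j hne (by simpa using congrArg Subtype.val hij)
        have := Fintype.card_le_of_injective _ hinj
        simp at this
      obtain ⟨i, j, hij, he⟩ := hinj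
      refine hf2 i j hij _ (hq2 i) (by simp) _ (hq2 j) (by simp) ?_
      rw [he]
    · obtain ⟨E, hE⟩ := hit 𝓕 ∅ hB
      -- total assignments on `E`
      let τ : Finset X → Finset (X × Bool) := fun T => E.image (fun x => (x, decide (x ∈ T)))
      have hτ : ∀ T (p : X × Bool), p ∈ τ T ↔ p.1 ∈ E ∧ p.2 = decide (p.1 ∈ T) := by
        intro T p
        simp only [τ, Finset.mem_image]
        constructor
        · rintro ⟨x, hx, rfl⟩; exact ⟨hx, rfl⟩
        · rintro ⟨h1, h2⟩
          exact ⟨p.1, h1, by rw [← h2]⟩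
      let 𝓖 : Finset X → Set (Finset (X × Bool)) := fun T =>
        {F' | ∃ F ∈ 𝓕, ¬ Conf (F : Set (X × Bool)) (τ T) ∧ F' = F.filter (fun p => p.1 ∉ E)}
      have hex : ∀ T : Finset X, ¬ Conf (τ T : Set (X × Bool)) c →
          ∃ r : Finset (X × Bool), (r : Set (X × Bool)) ⊆ c ∧
          ∀ s : Finset (X × Bool), Consis (s : Set (X × Bool)) → r ⊆ s →
            ∃ F ∈ 𝓖 T, ¬ Conf (F : Set (X × Bool)) s := by
        intro T hT
        apply ih
        · rintro F' ⟨F, hF, _, rfl⟩
          obtain ⟨p, hp, _, hpE⟩ := hE F hF (by simp)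
          have h1 : (F.filter (fun p => p.1 ∉ E)).card < F.card := by
            apply Finset.card_lt_card
            rw [Finset.filter_ssubset]
            exact ⟨p, hp, by simpa using hpE⟩
          have h2 := hcard F hF
          omega
        · intro s hs hsc
          obtain ⟨F, hF, hFs⟩ := H (τ T ∪ s.filter (fun p => p.1 ∉ E)) (by
            rintro ⟨x, b, h1, h2⟩
            simp only [Finset.coe_union, Set.mem_union, Finset.mem_coe, Finset.mem_filter,
              hτ] at h1 h2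
            rcases h1 with h1 | h1 <;> rcases h2 with h2 | h2
            · have h3 : (!b) = b := h2.2.trans h1.2.symm
              simp at h3
            · exact h2.2 h1.1
            · exact h1.2 h2.1
            · exact hs ⟨x, b, h1.1, h2.1⟩) (by
            rintro ⟨x, b, h1, h2⟩
            simp only [Finset.coe_union, Set.mem_union, Finset.mem_coe, Finset.mem_filter] at h1
            rcases h1 with h1 | h1
            · exact hT ⟨x, b, h1, h2⟩
            · exact hsc ⟨x, b, h1.1, h2⟩)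
          refine ⟨F.filter (fun p => p.1 ∉ E), ⟨F, hF, ?_, rfl⟩, ?_⟩
          · rintro ⟨x, b, h1, h2⟩
            exact hFs ⟨x, b, h1, by simp only [Finset.coe_union, Set.mem_union]; exact Or.inl h2⟩
          · rintro ⟨x, b, h1, h2⟩
            simp only [Finset.mem_coe, Finset.mem_filter] at h1 h2
            refine hFs ⟨x, b, h1.1, ?_⟩
            simp only [Finset.coe_union, Set.mem_union, Finset.mem_coe, Finset.mem_filter]
            exact Or.inr ⟨h2, h1.2⟩
      choose! r hr1 hr2 using hex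
      let cE : Finset (X × Bool) := (E ×ˢ Finset.univ).filter (fun p => p ∈ c)
      let R : Finset (X × Bool) := cE ∪ (E.powerset.filter
        (fun T => ¬ Conf (τ T : Set (X × Bool)) c)).biUnion r
      refine ⟨R, ?_, ?_⟩
      · intro p hp
        simp only [R, Finset.mem_coe, Finset.mem_union, Finset.mem_biUnion, Finset.mem_filter,
          cE] at hp
        rcases hp with hp | ⟨T, ⟨_, hT⟩, hp⟩
        · exact hp.2
        · exact hr1 T hT hp
      · intro s hs hRs
        set T : Finset X := E.filter (fun x => (x, false) ∉ s) with hTdef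
        have hsE : ∀ x b, x ∈ E → (x, b) ∈ s → (x, b) ∈ τ T := by
          intro x b hx hb
          rw [hτ]
          refine ⟨hx, ?_⟩
          cases b with
          | false => simp [hTdef, hb]
          | true =>
            have : (x, false) ∉ s := fun h => hs ⟨x, true, hb, h⟩
            simp [hTdef, hx, this]
        have hTc : ¬ Conf (τ T : Set (X × Bool)) c := by
          rintro ⟨x, b, h1, h2⟩
          rw [Finset.mem_coe] at h1
          have hx : x ∈ E := ((hτ T _).mp h1).1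
          have h3 : (x, !b) ∈ s := by
            apply hRs
            simp only [R, Finset.mem_union, cE, Finset.mem_filter, Finset.mem_product]
            exact Or.inl ⟨⟨hx, Finset.mem_univ _⟩, h2⟩
          have h4 := ((hτ T _).mp (hsE x (!b) hx h3)).2
          have h5 := ((hτ T _).mp h1).2
          simp only at h4 h5
          rw [← h5] at h4
          simp at h4
        have hrs : r T ⊆ s := by
          intro p hp
          apply hRs
          simp only [R, Finset.mem_union, Finset.mem_biUnion, Finset.mem_filter]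
          refine Or.inr ⟨T, ⟨?_, hTc⟩, hp⟩
          rw [Finset.mem_powerset]
          exact Finset.filter_subset _ _
        obtain ⟨F', ⟨F, hF, hFτ, rfl⟩, hF's⟩ := hr2 T hTc s hs hrs
        refine ⟨F, hF, ?_⟩
        rintro ⟨x, b, h1, h2⟩
        by_cases hx : x ∈ E
        · exact hFτ ⟨x, b, h1, hsE x _ hx h2⟩
        · refine hF's ⟨x, b, ?_, h2⟩
          simp only [Finset.mem_coe, Finset.mem_filter]
          exact ⟨h1, hx⟩

theorem lemmaD_proof : LemmaD :=
  fun _ l 𝓕 hcard c _ H => lemmaD_aux c l 𝓕 hcard H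

theorem lemmaK_aux {X : Type} (l : ℕ) (𝓕 : Set (Finset (X × Bool)))
    (hcard : ∀ F ∈ 𝓕, F.card ≤ l) (hfr : FreshFam 𝓕) (c : Set (X × Bool)) (hc : #c < continuum)
    (n : ℕ) : ∀ ρ : Finset (X × Bool), l + 1 ≤ ρ.card + n →
    (∀ F ∈ 𝓕, ρ ⊆ F → ∃ x b, (x, b) ∈ F ∧ (x, b) ∉ ρ ∧ (x, !b) ∈ c) →
    ∃ s : Finset (X × Bool), (s : Set (X × Bool)) ⊆ c ∧
      ∀ F ∈ 𝓕, ρ ⊆ F → ∃ x b, (x, b) ∈ F ∧ (x, b) ∉ ρ ∧ (x, !b) ∈ s := by
  classical
  induction n with
  | zero =>
    intro ρ hρ _
    refine ⟨∅, by simp, fun F hF hρF => ?_⟩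
    have h1 := hcard F hF
    have h2 := Finset.card_le_card hρF
    omega
  | succ n ih =>
    intro ρ hρ H
    by_cases hB : Big 𝓕 ρ
    · exfalso
      obtain ⟨F, hF, hρF, hY⟩ := hfr ρ hB (Prod.fst '' c) (lt_of_le_of_lt mk_image_le hc)
      obtain ⟨x, b, h1, h2, h3⟩ := H F hF hρF
      exact hY (x, b) h1 h2 ⟨(x, !b), h3, rfl⟩
    · obtain ⟨E, hE⟩ := hit 𝓕 ρ hB
      have hex : ∀ p : X × Bool, p ∉ ρ → ∃ s : Finset (X × Bool), (s : Set (X × Bool)) ⊆ c ∧
          ∀ F ∈ 𝓕, ρ ⊆ F → p ∈ F → ∃ x b, (x, b) ∈ F ∧ (x, b) ∉ ρ ∧ (x, !b) ∈ s := by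
        intro p hp
        by_cases hpc : (p.1, !p.2) ∈ c
        · refine ⟨{(p.1, !p.2)}, by simpa using hpc, fun F hF hρF hpF => ?_⟩
          exact ⟨p.1, p.2, hpF, hp, by simp⟩
        · obtain ⟨s, hs1, hs2⟩ := ih (insert p ρ) (by
            rw [Finset.card_insert_of_notMem hp]; omega) (by
            intro F hF hρF
            obtain ⟨x, b, h1, h2, h3⟩ := H F hF (fun q hq => hρF (Finset.mem_insert_of_mem hq))
            refine ⟨x, b, h1, ?_, h3⟩
            rw [Finset.mem_insert]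
            rintro (h4 | h4)
            · apply hpc
              rw [← h4]
              exact h3
            · exact h2 h4)
          refine ⟨s, hs1, fun F hF hρF hpF => ?_⟩
          obtain ⟨x, b, h1, h2, h3⟩ := hs2 F hF (by
            intro q hq
            rw [Finset.mem_insert] at hq
            rcases hq with rfl | hq
            · exact hpF
            · exact hρF hq)
          exact ⟨x, b, h1, fun h => h2 (Finset.mem_insert_of_mem h), h3⟩
      choose! s hs1 hs2 using hex
      refine ⟨((E ×ˢ Finset.univ).filter (fun p => p ∉ ρ)).biUnion s, ?_, ?_⟩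
      · intro q hq
        simp only [Finset.mem_coe, Finset.mem_biUnion, Finset.mem_filter] at hq
        obtain ⟨p, ⟨_, hp⟩, hq⟩ := hq
        exact hs1 p hp hq
      · intro F hF hρF
        obtain ⟨p, hpF, hpρ, hpE⟩ := hE F hF hρF
        obtain ⟨x, b, h1, h2, h3⟩ := hs2 p hpρ F hF hρF hpF
        refine ⟨x, b, h1, h2, ?_⟩
        rw [Finset.mem_biUnion]
        refine ⟨p, ?_, h3⟩
        rw [Finset.mem_filter, Finset.mem_product]
        exact ⟨⟨hpE, Finset.mem_univ _⟩, hpρ⟩

theorem lemmaK_proof : LemmaK := by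
  intro X l 𝓕 hcard hfr c hc H
  obtain ⟨s, hs1, hs2⟩ := lemmaK_aux l 𝓕 hcard hfr c hc (l + 1) ∅ (by simp) (by
    intro F hF _
    obtain ⟨x, b, h1, h2⟩ := H F hF
    exact ⟨x, b, h1, by simp, h2⟩)
  refine ⟨s, hs1, fun F hF => ?_⟩
  obtain ⟨x, b, h1, _, h3⟩ := hs2 F hF (by simp)
  exact ⟨x, b, h1, h3⟩

end Helper70

end Pool.Agent.BSig
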